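import Pool.Agent.Q130.CX.Lim
import Pool.Agent.Y833.SH.Boundary
import Pool.Agent.Y674.SH.Final2

/-!
# Corank one homeomorphisms of manifolds with boundary
-/

set_option autoImplicit false

open Set Filter Topology Metric Function
open scoped Manifold ContDiff

noncomputable section

namespace Pool.Agent.Q130.CX

open Pool.Agent.Y522 Pool.Agent.Y833.SH Pool.Agent.Y674.SH

section dom

variable {E H : Type*} [NormedAddCommGroup E] [InnerProductSpace ℝ E] [FiniteDimensional ℝ E]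
  [TopologicalSpace H] (I : ModelWithCorners ℝ E H) {M N : Type*} [TopologicalSpace M]
  [ChartedSpace H M] [TopologicalSpace N] [ChartedSpace H N]

/-- invariance of the interior under homeomorphisms -/
theorem int_symm [IsManifold I ∞ M] [IsManifold I ∞ N] (h : M ≃ₜ N) (y : N)
    (hy : y ∈ I.interior N) : h.symm y ∈ I.interior M := by
  set e' := chartAt H y with he'
  set x := h.symm y with hx
  set e := chartAt H x with he
  have hy0 : y ∈ e'.source := mem_chart_source H y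
  have hx0 : x ∈ e.source := mem_chart_source H x
  have h1 : e'.extend I y ∈ interior (e'.extend I).target :=
    (mem_int_iff I (chart_mem_atlas H y) hy0).1 hy
  obtain ⟨k, hk⟩ : ∃ k : E → M, ∀ z, k z = h.symm ((e'.extend I).symm z) := ⟨_, fun z => rfl⟩
  have hkx : k (e'.extend I y) = x := by
    rw [hk, (e'.extend I).left_inv (by rw [e'.extend_source]; exact hy0)]
  have hkc : ContinuousOn k (interior (e'.extend I).target) := by
    refine (h.symm.continuous.comp_continuousOn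
      (e'.continuousOn_extend_symm.mono interior_subset)).congr fun z _ => ?_
    rw [hk]
    rfl
  have hka : ContinuousAt k (e'.extend I y) := hkc.continuousAt (isOpen_interior.mem_nhds h1)
  have hsrc : k ⁻¹' e.source ∈ 𝓝 (e'.extend I y) :=
    hka.preimage_mem_nhds (by rw [hkx]; exact e.open_source.mem_nhds hx0)
  obtain ⟨r, hr, hball⟩ := nhds_basis_closedBall.mem_iff.1
    (inter_mem (isOpen_interior.mem_nhds h1) hsrc)
  have hio := Pool.Agent.Helper514.IoD.image_mem_nhds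
    (fun z => e.extend I (k z)) (e'.extend I y) r hr
    (e.continuousOn_extend.comp (hkc.mono fun z hz => (hball hz).1) fun z hz => by
      rw [e.extend_source]; exact (hball hz).2)
    (fun a ha b hb hab => by
      have h2 : k a = k b := (e.extend I).injOn (by rw [e.extend_source]; exact (hball ha).2)
        (by rw [e.extend_source]; exact (hball hb).2) hab
      rw [hk, hk] at h2
      exact (e'.extend I).symm.injOn (interior_subset (hball ha).1)
        (interior_subset (hball hb).1) (h.symm.injective h2))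
  simp only [hkx] at hio
  show extChartAt I x x ∈ interior (range I)
  rw [mem_interior_iff_mem_nhds]
  refine mem_of_superset hio ?_
  rintro _ ⟨z, -, rfl⟩
  exact ⟨e (k z), rfl⟩

theorem int_homeo [IsManifold I ∞ M] [IsManifold I ∞ N] (h : M ≃ₜ N) (x : M) :
    x ∈ I.interior M ↔ h x ∈ I.interior N := by
  constructor
  · intro hx
    have := int_symm I h.symm x hx
    simpa using this
  · intro hx
    have := int_symm I h (h x) hx
    simpa using this

end dom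

section gen

variable {E₁ E₂ H₁ H₂ : Type*} [NormedAddCommGroup E₁] [NormedSpace ℝ E₁]
  [NormedAddCommGroup E₂] [NormedSpace ℝ E₂] [TopologicalSpace H₁] [TopologicalSpace H₂]
  {I : ModelWithCorners ℝ E₁ H₁} {J : ModelWithCorners ℝ E₂ H₂}
  {M N : Type*} [TopologicalSpace M] [ChartedSpace H₁ M] [TopologicalSpace N] [ChartedSpace H₂ N]

theorem ld_inverse {f : M → N} {x : M} (hf : IsLocalDiffeomorphAt I J ∞ f x) :
    ∃ p : N → M, IsLocalDiffeomorphAt J I ∞ p (f x) ∧ p (f x) = x ∧ (∀ᶠ y in 𝓝 x, p (f y) = y) ∧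
      ∀ᶠ z in 𝓝 (f x), f (p z) = z := by
  obtain ⟨Φ, hx, heq⟩ := hf
  have h0 : f x = Φ.toPartialEquiv x := heq hx
  refine ⟨Φ.symm, ?_, ?_, ?_, ?_⟩
  · refine ⟨Φ.symm, ?_, fun _ _ => rfl⟩
    change f x ∈ Φ.target
    rw [h0]
    exact Φ.map_source hx
  · rw [h0]
    exact Φ.left_inv hx
  · filter_upwards [Φ.open_source.mem_nhds hx] with y hy
    rw [heq hy]
    exact Φ.left_inv hy
  · have h1 : f x ∈ Φ.target := by
      rw [h0]
      exact Φ.map_source hx
    filter_upwards [Φ.open_target.mem_nhds h1] with z hz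
    have h2 : Φ.symm z ∈ Φ.source := Φ.map_target hz
    rw [heq h2]
    exact Φ.right_inv hz

end gen

/-- the corank one theorem for manifolds with boundary, with abstract interiors -/
theorem coreB (m : ℕ) (M N X Y : Type) [TopologicalSpace M] [TopologicalSpace N]
    [TopologicalSpace X] [TopologicalSpace Y]
    [ChartedSpace (EuclideanHalfSpace (m + 1)) M] [ChartedSpace (EuclideanHalfSpace (m + 1)) N]
    [ChartedSpace (E (m + 1)) X] [ChartedSpace (E (m + 1)) Y]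
    [IsManifold (𝓡∂ (m + 1)) ∞ M] [IsManifold (𝓡∂ (m + 1)) ∞ N] [IsManifold (𝓡 (m + 1)) ∞ X]
    [IsManifold (𝓡 (m + 1)) ∞ Y] [T2Space M] [NormalSpace M] [SigmaCompactSpace X]
    (ι : X → M) (hι : Injective ι) (hιr : range ι = (𝓡∂ (m + 1)).interior M)
    (hιd : ∀ x, IsLocalDiffeomorphAt (𝓡 (m + 1)) (𝓡∂ (m + 1)) ∞ ι x)
    (κ : Y → N) (hκ : Injective κ) (hκr : range κ = (𝓡∂ (m + 1)).interior N)
    (hκd : ∀ y, IsLocalDiffeomorphAt (𝓡 (m + 1)) (𝓡∂ (m + 1)) ∞ κ y)
    (h : M ≃ₜ N)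
    (hb : ∀ x ∉ (𝓡∂ (m + 1)).interior M,
      IsLocalDiffeomorphAt (𝓡∂ (m + 1)) (𝓡∂ (m + 1)) ∞ h x)
    (hs : ∀ x ∈ (𝓡∂ (m + 1)).interior M, ContMDiffAt (𝓡∂ (m + 1)) (𝓡∂ (m + 1)) ∞ h x)
    (hr : ∀ x ∈ (𝓡∂ (m + 1)).interior M, m ≤ Module.finrank ℝ
      (LinearMap.range (mfderiv (𝓡∂ (m + 1)) (𝓡∂ (m + 1)) h x).toLinearMap))
    (O : Set (M × N)) (hO : IsOpen O) (hhO : ∀ x, (x, h x) ∈ O) :
    ∃ Φ : Diffeomorph (𝓡∂ (m + 1)) (𝓡∂ (m + 1)) M N ∞, (∀ x, (x, Φ x) ∈ O) ∧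
      ∀ x ∉ (𝓡∂ (m + 1)).interior M, ∀ᶠ y in 𝓝 x, Φ y = h y := by
  classical
  have hint : ∀ x, x ∈ (𝓡∂ (m + 1)).interior M ↔ h x ∈ (𝓡∂ (m + 1)).interior N :=
    int_homeo (𝓡∂ (m + 1)) h
  have hιc : Continuous ι := continuous_iff_continuousAt.2 fun x => (hιd x).contMDiffAt.continuousAt
  have hκc : Continuous κ := continuous_iff_continuousAt.2 fun x => (hκd x).contMDiffAt.continuousAt
  have : T2Space X := T2Space.of_injective_continuous hι hιc
  have hιo : IsOpenMap ι := IsLocalDiffeomorph.isOpenMap (I := 𝓡 (m + 1)) (J := 𝓡∂ (m + 1))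
    (n := ∞) hιd
  have hκo : IsOpenMap κ := IsLocalDiffeomorph.isOpenMap (I := 𝓡 (m + 1)) (J := 𝓡∂ (m + 1))
    (n := ∞) hκd
  have hιe : IsOpenEmbedding ι := IsOpenEmbedding.of_continuous_injective_isOpenMap hιc hι hιo
  have hκe : IsOpenEmbedding κ := IsOpenEmbedding.of_continuous_injective_isOpenMap hκc hκ hκo
  obtain ⟨f, hf⟩ : ∃ f : X ≃ₜ Y, ∀ x, κ (f x) = h (ι x) := by
    have hsub : ∀ x, x ∈ range ι ↔ h x ∈ range κ := by
      intro x
      rw [hιr, hκr]
      exact hint x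
    refine ⟨(hιe.isEmbedding.toHomeomorph.trans (h.subtype hsub)).trans
      hκe.isEmbedding.toHomeomorph.symm, fun x => ?_⟩
    have h1 := hκe.isEmbedding.toHomeomorph.apply_symm_apply
      ((hιe.isEmbedding.toHomeomorph.trans (h.subtype hsub)) x)
    exact congrArg Subtype.val h1
  have hmem : ∀ x, ι x ∈ (𝓡∂ (m + 1)).interior M := fun x => hιr ▸ mem_range_self x
  have hmemN : ∀ y, κ y ∈ (𝓡∂ (m + 1)).interior N := fun x => hκr ▸ mem_range_self x
  -- smoothness and local diffeomorphisms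
  have hfl : ∀ x, ∃ p : N → Y, IsLocalDiffeomorphAt (𝓡∂ (m + 1)) (𝓡 (m + 1)) ∞ p (h (ι x)) ∧
      ((f : X → Y) =ᶠ[𝓝 x] fun x => p (h (ι x))) := by
    intro x
    obtain ⟨p, hp1, hp2, hp3, hp4⟩ := ld_inverse (hκd (f x))
    rw [hf] at hp1
    refine ⟨p, hp1, ?_⟩
    filter_upwards [f.continuous.continuousAt.eventually hp3] with y hy
    rw [← hf, hy]
  have hfs : ContMDiff (𝓡 (m + 1)) (𝓡 (m + 1)) ∞ f := by
    intro x
    obtain ⟨p, hp1, hp2⟩ := hfl x
    refine ContMDiffAt.congr_of_eventuallyEq ?_ hp2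
    exact hp1.contMDiffAt.comp x ((hs _ (hmem x)).comp x (hιd x).contMDiffAt)
  have hfld : ∀ x, IsLocalDiffeomorphAt (𝓡∂ (m + 1)) (𝓡∂ (m + 1)) ∞ h (ι x) →
      LD (m + 1) f x := by
    intro x hx
    obtain ⟨p, hp1, hp2⟩ := hfl x
    have h1 := IsLocalDiffeomorphAt.comp (𝓡∂ (m + 1)) N (hιd x) hx
    have h2 := IsLocalDiffeomorphAt.comp (𝓡 (m + 1)) Y h1 (g := p) hp1
    exact LD.congr h2 hp2
  have hfr : ∀ x, m ≤ Module.finrank ℝ
      (LinearMap.range (mfderiv (𝓡 (m + 1)) (𝓡 (m + 1)) f x).toLinearMap) := by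
    intro x
    have e1 : mfderiv (𝓡 (m + 1)) (𝓡∂ (m + 1)) (κ ∘ f) x =
        (mfderiv (𝓡 (m + 1)) (𝓡∂ (m + 1)) κ (f x)).comp
          (mfderiv (𝓡 (m + 1)) (𝓡 (m + 1)) f x) :=
      mfderiv_comp x ((hκd _).mdifferentiableAt (by simp)) (hfs.mdifferentiableAt (by simp))
    have e2 : mfderiv (𝓡 (m + 1)) (𝓡∂ (m + 1)) (h ∘ ι) x =
        (mfderiv (𝓡∂ (m + 1)) (𝓡∂ (m + 1)) h (ι x)).comp
          (mfderiv (𝓡 (m + 1)) (𝓡∂ (m + 1)) ι x) :=
      mfderiv_comp x ((hs _ (hmem x)).mdifferentiableAt (by simp))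
        ((hιd x).mdifferentiableAt (by simp))
    have e3 : κ ∘ f = h ∘ ι := funext fun x => hf x
    have hsur : Surjective (mfderiv (𝓡 (m + 1)) (𝓡∂ (m + 1)) ι x) :=
      ((hιd x).mfderivToContinuousLinearEquiv (by simp)).surjective
    let A : E (m + 1) →L[ℝ] E (m + 1) := mfderiv (𝓡 (m + 1)) (𝓡∂ (m + 1)) κ (f x)
    let B : E (m + 1) →L[ℝ] E (m + 1) := mfderiv (𝓡 (m + 1)) (𝓡 (m + 1)) f x
    let C : E (m + 1) →L[ℝ] E (m + 1) := mfderiv (𝓡∂ (m + 1)) (𝓡∂ (m + 1)) h (ι x)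
    let D : E (m + 1) →L[ℝ] E (m + 1) := mfderiv (𝓡 (m + 1)) (𝓡∂ (m + 1)) ι x
    have e4 : A.comp B = C.comp D := by
      show (mfderiv (𝓡 (m + 1)) (𝓡∂ (m + 1)) κ (f x)).comp
          (mfderiv (𝓡 (m + 1)) (𝓡 (m + 1)) f x) =
        (mfderiv (𝓡∂ (m + 1)) (𝓡∂ (m + 1)) h (ι x)).comp
          (mfderiv (𝓡 (m + 1)) (𝓡∂ (m + 1)) ι x)
      rw [← e1, ← e2, e3]
    have hC : m ≤ Module.finrank ℝ (LinearMap.range C.toLinearMap) := hr _ (hmem x)
    have hD : Surjective D := hsur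
    show m ≤ Module.finrank ℝ (LinearMap.range B.toLinearMap)
    have e5 : LinearMap.range C.toLinearMap ≤
        Submodule.map A.toLinearMap (LinearMap.range B.toLinearMap) := by
      rintro _ ⟨v, rfl⟩
      obtain ⟨u, hu⟩ := hD v
      refine ⟨B u, ⟨u, rfl⟩, ?_⟩
      have := congrArg (fun T => T u) e4
      show A (B u) = C v
      rw [← hu]
      exact this
    exact hC.trans ((Submodule.finrank_mono e5).trans (Submodule.finrank_map_le _ _))
  -- separation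
  have hBc : IsClosed {x : M | ¬ IsLocalDiffeomorphAt (𝓡∂ (m + 1)) (𝓡∂ (m + 1)) ∞ h x} := by
    rw [← isOpen_compl_iff, isOpen_iff_mem_nhds]
    intro x hx
    have hx' : IsLocalDiffeomorphAt (𝓡∂ (m + 1)) (𝓡∂ (m + 1)) ∞ h x := by
      by_contra h'
      exact hx h'
    filter_upwards [ld_eventually hx'] with y hy h' using h' hy
  have hbd : IsClosed ((𝓡∂ (m + 1)).interior M)ᶜ := (isOpen_int (𝓡∂ (m + 1))).isClosed_compl
  obtain ⟨W, W', hW, hW', hBW, hbW, hWW⟩ := normal_separation hBc hbd (by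
    rw [Set.disjoint_left]
    intro x hx hx'
    exact hx (hb x hx'))
  have hWW' : ∀ x ∈ W', x ∉ W := fun x hx hx' => Set.disjoint_left.1 hWW hx' hx
  obtain ⟨f', h1, h2, h3, h4⟩ := coInf f hfs (ι ⁻¹' W) (hW.preimage hιc)
    (fun x hx => ⟨hBW fun h' => hx (hfld x h'), hfr x⟩)
    {p | (ι p.1, κ p.2) ∈ O} (hO.preimage ((hιc.comp continuous_fst).prodMk
      (hκc.comp continuous_snd))) (fun x => by
        show (ι x, κ (f x)) ∈ O
        rw [hf]
        exact hhO _)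
  obtain ⟨G, hG1, hG2⟩ : ∃ G : M → N, (∀ x, G (ι x) = κ (f' x)) ∧ ∀ y, y ∉ range ι → G y = h y := by
    refine ⟨fun y => if hy : ∃ x, ι x = y then κ (f' hy.choose) else h y, ?_, ?_⟩
    · intro x
      have hx : ∃ x', ι x' = ι x := ⟨x, rfl⟩
      simp only [dif_pos hx]
      rw [hι hx.choose_spec]
    · intro y hy
      have : ¬ ∃ x, ι x = y := hy
      simp only [dif_neg this]
  have hbn : ∀ y, y ∉ range ι → h y ∉ (𝓡∂ (m + 1)).interior N := by
    intro y hy h1
    rw [← hint, ← hιr] at h1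
    exact hy h1
  have hGi : Injective G := by
    intro a b hab
    by_cases ha : a ∈ range ι
    · by_cases hb' : b ∈ range ι
      · obtain ⟨x, rfl⟩ := ha
        obtain ⟨y, rfl⟩ := hb'
        rw [hG1, hG1] at hab
        rw [h2.1 (hκ hab)]
      · exfalso
        obtain ⟨x, rfl⟩ := ha
        rw [hG1, hG2 b hb'] at hab
        exact hbn b hb' (hab ▸ hmemN _)
    · by_cases hb' : b ∈ range ι
      · exfalso
        obtain ⟨x, rfl⟩ := hb'
        rw [hG1, hG2 a ha] at hab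
        exact hbn a ha (hab ▸ hmemN _)
      · rw [hG2 a ha, hG2 b hb'] at hab
        exact h.injective hab
  have hGs : Surjective G := by
    intro y
    by_cases hy : y ∈ (𝓡∂ (m + 1)).interior N
    · rw [← hκr] at hy
      obtain ⟨y', rfl⟩ := hy
      obtain ⟨x, hx⟩ := h2.2 y'
      exact ⟨ι x, by rw [hG1, hx]⟩
    · refine ⟨h.symm y, ?_⟩
      rw [hG2, h.apply_symm_apply]
      intro h1
      rw [hιr, hint, h.apply_symm_apply] at h1
      exact hy h1
  have hGW : ∀ y ∈ W', G y = h y := by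
    intro y hy
    by_cases g1 : y ∈ range ι
    · obtain ⟨x, rfl⟩ := g1
      rw [hG1, h4 x (hWW' _ hy), hf]
    · exact hG2 y g1
  have hloc : IsLocalDiffeomorph (𝓡∂ (m + 1)) (𝓡∂ (m + 1)) ∞ G := by
    intro y
    by_cases hy : y ∈ range ι
    · obtain ⟨x, rfl⟩ := hy
      obtain ⟨p, hp1, hp2, hp3, hp4⟩ := ld_inverse (hιd x)
      have g1 : LD (m + 1) f' (p (ι x)) := by
        rw [hp2]
        exact h3 x
      have g2 := IsLocalDiffeomorphAt.comp (𝓡 (m + 1)) Y hp1 g1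
      have g3 := IsLocalDiffeomorphAt.comp (𝓡∂ (m + 1)) N g2 (hκd _)
      refine ld_congr g3 ?_
      filter_upwards [hp4] with z hz
      show G z = κ (f' (p z))
      rw [← hG1, hz]
    · have hyi : y ∉ (𝓡∂ (m + 1)).interior M := by rwa [← hιr]
      refine ld_congr (hb y hyi) ?_
      filter_upwards [hW'.mem_nhds (hbW hyi)] with z hz using hGW z hz
  obtain ⟨Φ, hΦ⟩ : ∃ Φ : Diffeomorph (𝓡∂ (m + 1)) (𝓡∂ (m + 1)) M N ∞, ∀ x, Φ x = G x :=
    ⟨hloc.diffeomorphOfBijective ⟨hGi, hGs⟩, fun x => rfl⟩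
  refine ⟨Φ, fun x => ?_, fun x hx => ?_⟩
  · rw [hΦ]
    by_cases g1 : x ∈ range ι
    · obtain ⟨x, rfl⟩ := g1
      rw [hG1]
      exact h1 x
    · rw [hG2 x g1]
      exact hhO x
  · filter_upwards [hW'.mem_nhds (hbW hx)] with z hz
    rw [hΦ]
    exact hGW z hz

end Pool.Agent.Q130.CX
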