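import Pool.Agent.Q130.CX.One

/-!
# Corank one homeomorphisms of noncompact manifolds

A smooth homeomorphism `f : X → Y` of `σ`-compact manifolds without boundary, which has corank at
most one at the points of an open set `V` and is a local diffeomorphism at the other points, is
approximated, in the fine `C⁰` topology, by diffeomorphisms which are equal to `f` off `V`.
-/

set_option autoImplicit false

open Set Filter Topology Metric Function
open scoped Manifold ContDiff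

noncomputable section

namespace Pool.Agent.Q130.CX

open Pool.Agent.Y522 Pool.Agent.Y522.NA Pool.Agent.Y170.NA

variable {m : ℕ} {X Y : Type} [TopologicalSpace X] [T2Space X] [ChartedSpace (E (m + 1)) X]
  [IsManifold (𝓡 (m + 1)) ∞ X] [TopologicalSpace Y] [ChartedSpace (E (m + 1)) Y]
  [IsManifold (𝓡 (m + 1)) ∞ Y]

theorem exists_dat (f : X → Y) (hf : ContMDiff (𝓡 (m + 1)) (𝓡 (m + 1)) ∞ f)
    (hinj : Injective f) (x : X) (V : Set X) (hV : V ∈ 𝓝 x)
    (hrk : m ≤ Module.finrank ℝ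
      (LinearMap.range (mfderiv (𝓡 (m + 1)) (𝓡 (m + 1)) f x).toLinearMap)) :
    ∃ D : Dat m f, (D.A 0 : X) = x ∧ closure (D.U : Set X) ⊆ V := by
  let Df : E (m + 1) →L[ℝ] E (m + 1) := mfderiv (𝓡 (m + 1)) (𝓡 (m + 1)) f x
  have hDf : HasMFDerivAt (𝓡 (m + 1)) (𝓡 (m + 1)) f x Df :=
    (hf.mdifferentiableAt (by simp)).hasMFDerivAt
  set e := chartAt (E (m + 1)) (f x) with he
  have hfe : f x ∈ e.source := mem_chart_source _ _
  have heLD : ∀ y ∈ e.source, LD (m + 1) (e : Y → E (m + 1)) y := fun y hy =>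
    Pool.Agent.Y66.CM.LD_chart _ y hy
  have : LocallyCompactSpace X := ChartedSpace.locallyCompactSpace (E (m + 1)) X
  obtain ⟨K, hK, hxK, hKV'⟩ := exists_compact_subset
    ((e.open_source.preimage hf.continuous).inter (isOpen_interior (s := V)))
    (show x ∈ f ⁻¹' e.source ∩ interior V from ⟨hfe, mem_interior_iff_mem_nhds.2 hV⟩)
  have hKV : K ⊆ f ⁻¹' e.source := fun y hy => (hKV' hy).1
  let U : TopologicalSpace.Opens X := ⟨interior K, isOpen_interior⟩
  have hcK : closure (interior K) ⊆ K := by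
    refine (closure_mono interior_subset).trans ?_
    rw [hK.isClosed.closure_eq]
  have hcl : ∀ y ∈ closure (U : Set X), f y ∈ e.source := by
    intro y hy
    exact hKV (hcK hy)
  have hU : ∀ u : U, f u ∈ e.source := fun u => hcl _ (subset_closure u.2)
  have hFs : ∀ u : U, ContMDiffAt (𝓡 (m + 1)) (𝓡 (m + 1)) ∞ (fun u : U => e (f u)) u := fun u =>
    (heLD _ (hU u)).contMDiffAt.comp u (hf.contMDiffAt.comp u contMDiff_subtype_val.contMDiffAt)
  have hFc : Continuous (fun u : U => e (f u)) :=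
    continuous_iff_continuousAt.mpr fun u => (hFs u).continuousAt
  have hFi : Injective (fun u : U => e (f u)) := fun u v huv =>
    Subtype.ext (hinj (e.injOn (hU u) (hU v) huv))
  have hxU : x ∈ U := hxK
  -- differentials
  have he0 : LD (m + 1) (e : Y → E (m + 1)) (f x) := heLD _ hfe
  let De : E (m + 1) →L[ℝ] E (m + 1) := mfderiv (𝓡 (m + 1)) (𝓡 (m + 1)) (e : Y → E (m + 1)) (f x)
  have hDe : Injective De := he0.mfderiv_injective
  have hval : LD (m + 1) (Subtype.val : U → X) ⟨x, hxU⟩ := LD_val U _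
  let Dv : E (m + 1) →L[ℝ] E (m + 1) :=
    mfderiv (𝓡 (m + 1)) (𝓡 (m + 1)) (Subtype.val : U → X) ⟨x, hxU⟩
  have hDv : Injective Dv := hval.mfderiv_injective
  have hDvs : Surjective Dv := by
    have := LinearMap.injective_iff_surjective (f := Dv.toLinearMap)
    exact this.mp hDv
  obtain ⟨P, hP⟩ := exists_proj (LinearMap.range (De.toLinearMap ∘ₗ Df.toLinearMap)) (by
    rw [LinearMap.range_comp]
    have h1 : Module.finrank ℝ (Submodule.map De.toLinearMap (LinearMap.range Df.toLinearMap)) =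
        Module.finrank ℝ (LinearMap.range Df.toLinearMap) :=
      (LinearEquiv.finrank_eq (Submodule.equivMapOfInjective De.toLinearMap hDe _)).symm
    rw [h1]
    exact hrk)
  have hPs : ∀ᶠ y in 𝓝 (⟨x, hxU⟩ : U),
      ContMDiffAt (𝓡 (m + 1)) (𝓡 m) ∞ (fun u : U => P (e (f u))) y :=
    Eventually.of_forall fun u =>
      ContMDiffAt.comp (g := fun w : E (m + 1) => P w) u P.contMDiff.contMDiffAt (hFs u)
  have hPd : Surjective (mfderiv (𝓡 (m + 1)) (𝓡 m) (fun u : U => P (e (f u))) ⟨x, hxU⟩) := by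
    have hd' : mfderiv (𝓡 (m + 1)) (𝓡 m) (fun u : U => P (e (f u))) ⟨x, hxU⟩ =
        P ∘L (De ∘L (Df ∘L Dv)) := by
      have d1 : HasMFDerivAt (𝓡 (m + 1)) (𝓡 (m + 1)) (Subtype.val : U → X) ⟨x, hxU⟩ Dv :=
        hval.mdifferentiableAt.hasMFDerivAt
      have d2 : HasMFDerivAt (𝓡 (m + 1)) (𝓡 (m + 1)) f ((⟨x, hxU⟩ : U) : X) Df := hDf
      have d3 : HasMFDerivAt (𝓡 (m + 1)) (𝓡 (m + 1)) (e : Y → E (m + 1))
          (f ((⟨x, hxU⟩ : U) : X)) De := he0.mdifferentiableAt.hasMFDerivAt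
      have d4 : HasMFDerivAt (𝓡 (m + 1)) (𝓡 m) (fun w : E (m + 1) => P w)
          (e (f ((⟨x, hxU⟩ : U) : X))) P := P.hasFDerivAt.hasMFDerivAt
      have c1 : HasMFDerivAt (𝓡 (m + 1)) (𝓡 (m + 1)) (fun u : U => f u) ⟨x, hxU⟩ (Df ∘L Dv) :=
        HasMFDerivAt.comp (g := f) (f := (Subtype.val : U → X)) (⟨x, hxU⟩ : U) d2 d1
      have c2 : HasMFDerivAt (𝓡 (m + 1)) (𝓡 (m + 1)) (fun u : U => e (f u)) ⟨x, hxU⟩
          (De ∘L (Df ∘L Dv)) :=
        HasMFDerivAt.comp (g := (e : Y → E (m + 1))) (f := fun u : U => f u) (⟨x, hxU⟩ : U) d3 c1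
      exact (HasMFDerivAt.comp (g := fun w : E (m + 1) => P w) (f := fun u : U => e (f u))
        (⟨x, hxU⟩ : U) d4 c2).mfderiv
    rw [hd']
    intro y
    obtain ⟨w, ⟨v, hv⟩, hw⟩ := hP y
    obtain ⟨v', hv'⟩ := hDvs v
    refine ⟨v', ?_⟩
    show P (De (Df (Dv v'))) = y
    rw [hv', ← hw, ← hv]
    rfl
  obtain ⟨A, L, b, hA, hNB⟩ := Pool.Agent.Y47.SH.nbox m U (fun u : U => e (f u)) hFc hFi ⟨x, hxU⟩
    ⟨P, hPs, hPd⟩
  obtain ⟨η, hη, hstep⟩ := hStep m U (fun u : U => e (f u)) A L b hFc hNB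
  exact ⟨⟨U, f x, A, L, b, η, hcl, hNB, hη, hstep⟩, congrArg Subtype.val hA,
    fun y hy => interior_subset (hKV' (hcK hy)).2⟩


/-- the open quarter box -/
def qb {f : X → Y} (D : Dat m f) : Set X :=
  (fun w => (D.A w : X)) '' {z : E (m + 1) | ‖tl z‖ < 1 / 4 ∧ |z 0| < 1 / 4}

theorem qb_open {f : X → Y} (D : Dat m f) : IsOpen (qb D) := by
  apply isOpen_image_of_LD (n := m + 1) (Pool.Agent.Y870.SH.open_small_box (1 / 4))
  intro z hz
  apply bx_LD D
  exact ⟨by have := hz.1; linarith, by have := hz.2; linarith⟩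

/-- a locally finite family of data whose quarter boxes cover the bad set -/
theorem exists_family [SigmaCompactSpace X] (f : X → Y)
    (hf : ContMDiff (𝓡 (m + 1)) (𝓡 (m + 1)) ∞ f) (hinj : Injective f) (V : Set X) (hV : IsOpen V)
    (s : Set X) (hs : IsClosed s) (hsV : s ⊆ V)
    (hrk : ∀ x ∈ s, m ≤ Module.finrank ℝ
      (LinearMap.range (mfderiv (𝓡 (m + 1)) (𝓡 (m + 1)) f x).toLinearMap)) :
    ∃ (α : Type) (_ : Countable α) (D : α → Dat m f),
      (∀ a, closure ((D a).U : Set X) ⊆ V) ∧ (s ⊆ ⋃ a, qb (D a)) ∧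
      LocallyFinite fun a => closure ((D a).U : Set X) := by
  classical
  have : LocallyCompactSpace X := ChartedSpace.locallyCompactSpace (E (m + 1)) X
  set K' : CompactExhaustion X := CompactExhaustion.choice X with hK'
  set K : CompactExhaustion X := K'.shiftr.shiftr with hKd
  set Kdiff := fun n ↦ K (n + 1) \ interior (K n) with hKdiff
  have hKcov : ∀ x, x ∈ Kdiff (K'.find x + 1) := by
    intro x
    simpa only [K'.find_shiftr] using
      diff_subset_diff_right interior_subset (K'.shiftr.mem_diff_shiftr_find x)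
  have Kdiffc : ∀ n, IsCompact (Kdiff n ∩ s) :=
    fun n ↦ ((K.isCompact _).diff isOpen_interior).inter_right hs
  have hnb : ∀ (n) (x : ↑(Kdiff (n + 1) ∩ s)), (K n)ᶜ ∩ V ∈ 𝓝 (x : X) :=
    fun n x ↦ inter_mem
      ((K.isClosed n).compl_mem_nhds fun hx' ↦ x.2.1.2 <| K.subset_interior_succ _ hx')
      (hV.mem_nhds (hsV x.2.2))
  choose! D hD0 hDV using fun n (x : ↑(Kdiff (n + 1) ∩ s)) ↦
    exists_dat f hf hinj (x : X) ((K n)ᶜ ∩ V) (hnb n x) (hrk x x.2.2)
  have hxr : ∀ (n x) (hx : x ∈ Kdiff (n + 1) ∩ s), qb (D n ⟨x, hx⟩) ∈ 𝓝 x := fun n x hx ↦ by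
    refine (qb_open _).mem_nhds ⟨0, ⟨?_, ?_⟩, hD0 n ⟨x, hx⟩⟩
    · rw [map_zero, norm_zero]; norm_num
    · change |(0:ℝ)| < 1 / 4
      rw [abs_zero]; norm_num
  choose T hT using fun n ↦ (Kdiffc (n + 1)).elim_nhds_subcover' _ (hxr n)
  set T' : ∀ n, Set ↑(Kdiff (n + 1) ∩ s) := fun n ↦ T n
  refine ⟨Σ n, T' n, inferInstance, fun a ↦ D a.1 a.2, ?_, ?_, ?_⟩
  · rintro ⟨n, x, hx⟩
    exact (hDV _ _).trans inter_subset_right
  · refine fun x hx ↦ mem_iUnion.2 ?_
    rcases mem_iUnion₂.1 (hT _ ⟨hKcov x, hx⟩) with ⟨⟨c, hc⟩, hcT, hcx⟩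
    exact ⟨⟨_, ⟨c, hc⟩, hcT⟩, hcx⟩
  · intro x
    refine ⟨interior (K (K'.find x + 3)),
      IsOpen.mem_nhds isOpen_interior (K.subset_interior_succ _ (hKcov x).1), ?_⟩
    have : (⋃ k ≤ K'.find x + 2, range (Sigma.mk k) : Set (Σ n, T' n)).Finite :=
      (finite_le_nat _).biUnion fun k _ ↦ finite_range _
    apply this.subset
    rintro ⟨k, c, hc⟩
    simp only [mem_iUnion, mem_setOf_eq]
    rintro ⟨x, hxB, hxK⟩
    refine ⟨k, ?_, ⟨c, hc⟩, rfl⟩
    have := (mem_compl_iff _ _).1 (hDV k c hxB).1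
    contrapose! this with hnk
    exact K.subset hnk (interior_subset hxK)

end Pool.Agent.Q130.CX
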