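import Pool.Agent.Q130.CX.Fam

/-!
# Corank one homeomorphisms of noncompact manifolds: the limit
-/

set_option autoImplicit false

open Set Filter Topology Metric Function
open scoped Manifold ContDiff

noncomputable section

namespace Pool.Agent.Q130.CX

open Pool.Agent.Y522 Pool.Agent.Y522.NA Pool.Agent.Y170.NA

variable {m : ℕ} {X Y : Type} [TopologicalSpace X] [T2Space X] [ChartedSpace (E (m + 1)) X]
  [IsManifold (𝓡 (m + 1)) ∞ X] [TopologicalSpace Y] [ChartedSpace (E (m + 1)) Y]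
  [IsManifold (𝓡 (m + 1)) ∞ Y]

theorem bx_cl {f : X → Y} (D : Dat m f) : bx D ⊆ closure (D.U : Set X) :=
  (bx_sub D).trans subset_closure

/-- **Corank one homeomorphisms are limits of diffeomorphisms**, relative version for noncompact
manifolds. -/
theorem coInf [SigmaCompactSpace X] (f : X ≃ₜ Y) (hf : ContMDiff (𝓡 (m + 1)) (𝓡 (m + 1)) ∞ f)
    (V : Set X) (hV : IsOpen V)
    (hbad : ∀ x, ¬ LD (m + 1) f x → x ∈ V ∧ m ≤ Module.finrank ℝ
      (LinearMap.range (mfderiv (𝓡 (m + 1)) (𝓡 (m + 1)) f x).toLinearMap))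
    (O : Set (X × Y)) (hO : IsOpen O) (hfO : ∀ x, (x, f x) ∈ O) :
    ∃ f' : X → Y, (∀ x, (x, f' x) ∈ O) ∧ Bijective f' ∧ (∀ x, LD (m + 1) f' x) ∧
      ∀ x, x ∉ V → f' x = f x := by
  classical
  have hs : IsClosed {x | ¬ LD (m + 1) f x} := by
    rw [← isOpen_compl_iff, isOpen_iff_mem_nhds]
    intro x hx
    have hx' : LD (m + 1) f x := by
      by_contra h
      exact hx h
    filter_upwards [hx'.eventually] with y hy h using h hy
  obtain ⟨α, hα, D, hDV, hcov, hlf⟩ := exists_family (f : X → Y) hf f.injective V hV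
    {x | ¬ LD (m + 1) f x} hs (fun x hx => (hbad x hx).1) (fun x hx => (hbad x hx).2)
  let enc : Encodable α := Encodable.ofCountable α
  -- the exhaustion
  have : LocallyCompactSpace X := ChartedSpace.locallyCompactSpace (E (m + 1)) X
  let K : CompactExhaustion X := CompactExhaustion.choice X
  -- the neighbourhood of the graph
  let C1 : α → Set (X × Y) := fun j =>
    {p | p.1 ∈ closure ((D j).U : Set X)} ∩
    (((f ⁻¹' (chartAt (E (m + 1)) (D j).y0).source) ×ˢ
      (chartAt (E (m + 1)) (D j).y0).source) ∩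
      (fun p : X × Y => ‖chartAt (E (m + 1)) (D j).y0 p.2 -
        chartAt (E (m + 1)) (D j).y0 (f p.1)‖) ⁻¹' (Iio (D j).η))ᶜ
  have hC1 : ∀ j, IsClosed (C1 j) := by
    intro j
    refine IsClosed.inter (isClosed_closure.preimage continuous_fst) (IsOpen.isClosed_compl ?_)
    set e := chartAt (E (m + 1)) (D j).y0 with he
    have h1 : IsOpen ((f ⁻¹' e.source) ×ˢ e.source) :=
      (e.open_source.preimage hf.continuous).prod e.open_source
    refine ContinuousOn.isOpen_inter_preimage ?_ h1 isOpen_Iio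
    have c1 : ContinuousOn (fun p : X × Y => e p.2) ((f ⁻¹' e.source) ×ˢ e.source) :=
      e.continuousOn.comp continuous_snd.continuousOn fun p hp => hp.2
    have c2 : ContinuousOn (fun p : X × Y => e (f p.1)) ((f ⁻¹' e.source) ×ˢ e.source) :=
      e.continuousOn.comp (hf.continuous.comp continuous_fst).continuousOn fun p hp => hp.1
    exact (c1.sub c2).norm
  have hC1l : LocallyFinite C1 := by
    have h1 : LocallyFinite fun a => (Prod.fst ⁻¹' closure ((D a).U : Set X) : Set (X × Y)) :=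
      hlf.preimage_continuous continuous_fst
    exact h1.subset fun a => inter_subset_left
  let C2 : ℕ → Set (X × Y) := fun n => (interior (K (n + 1)))ᶜ ×ˢ (f.symm ⁻¹' (K n))
  have hC2 : ∀ n, IsClosed (C2 n) := fun n =>
    (isOpen_interior.isClosed_compl).prod ((K.isClosed n).preimage f.symm.continuous)
  have hC2l : LocallyFinite C2 := by
    intro p
    obtain ⟨n, hn⟩ := K.exists_mem p.1
    refine ⟨Prod.fst ⁻¹' (interior (K (n + 1))),
      (isOpen_interior.preimage continuous_fst).mem_nhds (K.subset_interior_succ n hn), ?_⟩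
    refine (finite_le_nat n).subset ?_
    rintro k ⟨q, hq1, hq2⟩
    have h1 : q.1 ∉ interior (K (k + 1)) := hq1.1
    have h2 : q.1 ∈ interior (K (n + 1)) := hq2
    show k ≤ n
    by_contra hk
    push Not at hk
    exact h1 (interior_mono (K.subset (by omega)) h2)
  obtain ⟨O', hO'd⟩ : ∃ O' : Set (X × Y), O' = O ∩ ((⋃ j, C1 j)ᶜ ∩ (⋃ n, C2 n)ᶜ) := ⟨_, rfl⟩
  have hO' : IsOpen O' := by
    rw [hO'd]
    exact hO.inter ((hC1l.isClosed_iUnion hC1).isOpen_compl.inter
      (hC2l.isClosed_iUnion hC2).isOpen_compl)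
  have hfO' : ∀ x, (x, f x) ∈ O' := by
    intro x
    rw [hO'd]
    refine ⟨hfO x, ?_, ?_⟩
    · intro h
      obtain ⟨j, h1, h2⟩ := mem_iUnion.1 h
      refine h2 ⟨⟨(D j).clo x h1, (D j).clo x h1⟩, ?_⟩
      show ‖chartAt (E (m + 1)) (D j).y0 (f x) - chartAt (E (m + 1)) (D j).y0 (f x)‖ < _
      rw [sub_self, norm_zero]
      exact (D j).pos
    · intro h
      obtain ⟨n, h1, h2⟩ := mem_iUnion.1 h
      refine h1 (K.subset_interior_succ n ?_)
      have h3 : f.symm (f x) ∈ K n := h2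
      rwa [f.symm_apply_apply] at h3
  have hOD : ∀ p ∈ O', ∀ j, p.1 ∈ closure ((D j).U : Set X) →
      p.2 ∈ (chartAt (E (m + 1)) (D j).y0).source ∧
      ‖chartAt (E (m + 1)) (D j).y0 p.2 - chartAt (E (m + 1)) (D j).y0 (f p.1)‖ < (D j).η := by
    intro p hp j hpj
    rw [hO'd] at hp
    have h1 : p ∉ C1 j := fun h => hp.2.1 (mem_iUnion.2 ⟨j, h⟩)
    by_contra hcon
    refine h1 ⟨hpj, fun h => hcon ⟨h.1.2, h.2⟩⟩
  have hfin : ∀ κ : α, {j | (bx (D j) ∩ bx (D κ)).Nonempty}.Finite := by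
    intro κ
    refine (hlf.finite_nonempty_inter_compact (bx_compact (D κ))).subset ?_
    rintro j ⟨x, hx1, hx2⟩
    exact ⟨x, bx_cl _ hx1, hx2⟩
  -- the sequence
  have hf0 : Inv (f : X → Y) D O' f := by
    refine ⟨hf, f.bijective, hfO', ?_⟩
    intro j z hz
    have := Pool.Agent.Y870.SH.NBox_fderiv (D j).nb hz
    have h2 : fderiv ℝ (fun w => tl ((D j).L (chartAt (E (m + 1)) (D j).y0
      (f ((D j).A w : X))))) z = tl := this
    rw [h2, sub_self, norm_zero]
    exact (D j).pos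
  have hnext : ∀ (k : ℕ) (G : {G : X → Y // Inv (f : X → Y) D O' G}),
      ∃ G' : {G : X → Y // Inv (f : X → Y) D O' G},
        (∀ x, LD (m + 1) G.1 x → LD (m + 1) G'.1 x) ∧
        (∀ j : α, Encodable.encode j = k →
          ∀ z ∈ box m (1 / 4) (1 / 4), LD (m + 1) G'.1 ((D j).A z : X)) ∧
        ∀ x, (∀ j : α, Encodable.encode j = k → x ∉ bx (D j)) → G'.1 x = G.1 x := by
    rintro k ⟨G, hG⟩
    by_cases hk : ∃ j : α, Encodable.encode j = k
    · obtain ⟨κ, hκ⟩ := hk
      obtain ⟨G', h1, h2, h3, h4⟩ := step_gen (f : X → Y) D O' hO' hOD κ (hfin κ) G hG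
      refine ⟨⟨G', h1⟩, h2, ?_, fun x hx => h4 x (hx κ hκ)⟩
      intro j hj
      have : j = κ := Encodable.encode_injective (hj.trans hκ.symm)
      subst this
      exact h3
    · exact ⟨⟨G, hG⟩, fun x hx => hx, fun j hj => absurd ⟨j, hj⟩ hk, fun x _ => rfl⟩
  choose next hn1 hn2 hn3 using hnext
  let Gs : ℕ → {G : X → Y // Inv (f : X → Y) D O' G} := fun n =>
    Nat.rec (motive := fun _ => {G : X → Y // Inv (f : X → Y) D O' G}) ⟨f, hf0⟩
      (fun k G => next k G) n
  have hGs : ∀ k, Gs (k + 1) = next k (Gs k) := fun k => rfl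
  obtain ⟨G, hG⟩ : ∃ G : ℕ → X → Y, ∀ k, G k = (Gs k).1 := ⟨_, fun k => rfl⟩
  have hG0 : G 0 = f := hG 0
  have hGi : ∀ k, Inv (f : X → Y) D O' (G k) := fun k => by rw [hG]; exact (Gs k).2
  have hGk : ∀ k x, LD (m + 1) (G k) x → LD (m + 1) (G (k + 1)) x := by
    intro k x hx
    rw [hG, hGs]
    rw [hG] at hx
    exact hn1 k _ x hx
  have hGg : ∀ j : α, ∀ z ∈ box m (1 / 4) (1 / 4),
      LD (m + 1) (G (Encodable.encode j + 1)) ((D j).A z : X) := by
    intro j z hz
    rw [hG, hGs]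
    exact hn2 _ _ j rfl z hz
  have hGo : ∀ k x, (∀ j : α, Encodable.encode j = k → x ∉ bx (D j)) → G (k + 1) x = G k x := by
    intro k x hx
    rw [hG, hGs, hG]
    exact hn3 k _ x hx
  have hmono : ∀ k l, k ≤ l → ∀ x, LD (m + 1) (G k) x → LD (m + 1) (G l) x := by
    intro k l hkl x hx
    induction l, hkl using Nat.le_induction with
    | base => exact hx
    | succ l _ ih => exact hGk l x ih
  -- stability on small and on compact sets
  have hstab : ∀ S : Set X, {j | (closure ((D j).U : Set X) ∩ S).Nonempty}.Finite →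
      ∃ k₀ : ℕ, ∀ k, k₀ ≤ k → ∀ x ∈ S, G k x = G k₀ x := by
    intro S hS
    obtain ⟨k₀, hk₀⟩ := (hS.image (fun j : α => (Encodable.encode j : ℕ))).bddAbove
    refine ⟨k₀ + 1, fun k hk x hx => ?_⟩
    induction k, hk using Nat.le_induction with
    | base => rfl
    | succ k hk ih =>
      rw [hGo k x, ih]
      intro j hj hxj
      have h1 : Encodable.encode j ≤ k₀ := hk₀ ⟨j, ⟨x, bx_cl _ hxj, hx⟩, rfl⟩
      omega
  have hloc : ∀ x : X, ∃ t ∈ 𝓝 x, ∃ k₀ : ℕ, ∀ k, k₀ ≤ k → ∀ y ∈ t, G k y = G k₀ y := by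
    intro x
    obtain ⟨t, ht, ht2⟩ := hlf x
    exact ⟨t, ht, hstab t ht2⟩
  choose t ht kx hkx using hloc
  obtain ⟨F, hF⟩ : ∃ F : X → Y, ∀ x, F x = G (kx x) x := ⟨_, fun x => rfl⟩
  have hFk : ∀ x k, kx x ≤ k → G k x = F x := by
    intro x k hk
    rw [hF]
    exact hkx x k hk x (mem_of_mem_nhds (ht x))
  have hFt : ∀ x, ∀ k, kx x ≤ k → ∀ y ∈ t x, G k y = F y := by
    intro x k hk y hy
    have h1 : G (max k (kx y)) y = F y := hFk y _ (le_max_right _ _)
    rw [← h1, hkx x k hk y hy, hkx x _ (hk.trans (le_max_left _ _)) y hy]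
  have hLDF : ∀ x k, kx x ≤ k → LD (m + 1) (G k) x → LD (m + 1) F x := by
    intro x k hk hx
    refine hx.congr ?_
    filter_upwards [ht x] with y hy
    exact (hFt x k hk y hy).symm
  refine ⟨F, ?_, ⟨?_, ?_⟩, ?_, ?_⟩
  · intro x
    rw [hF]
    have h := (hGi (kx x)).gr x
    rw [hO'd] at h
    exact h.1
  · intro x y hxy
    have h1 := hFk x (max (kx x) (kx y)) (le_max_left _ _)
    have h2 := hFk y (max (kx x) (kx y)) (le_max_right _ _)
    rw [← h1, ← h2] at hxy
    exact (hGi _).bij.1 hxy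
  · intro y
    obtain ⟨n, hn⟩ := K.exists_mem (f.symm y)
    obtain ⟨k₀, hk₀⟩ := hstab (K (n + 1)) (hlf.finite_nonempty_inter_compact (K.isCompact _))
    obtain ⟨x, hx⟩ := (hGi k₀).bij.2 y
    have hxK : x ∈ K (n + 1) := by
      by_contra hcon
      have h := (hGi k₀).gr x
      rw [hO'd] at h
      refine h.2.2 (mem_iUnion.2 ⟨n, fun h' => hcon (interior_subset h'), ?_⟩)
      show f.symm (G k₀ x) ∈ K n
      rw [hx]
      exact hn
    refine ⟨x, ?_⟩
    have h1 := hFk x (max (kx x) k₀) (le_max_left _ _)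
    rw [← h1, hk₀ _ (le_max_right _ _) x hxK, hx]
  · intro x
    by_cases hx : LD (m + 1) f x
    · refine hLDF x (kx x) le_rfl (hmono 0 _ (Nat.zero_le _) x ?_)
      rw [hG0]
      exact hx
    · obtain ⟨j, z, hz, hzx⟩ := mem_iUnion.1 (hcov hx)
      refine hLDF x (max (kx x) (Encodable.encode j + 1)) (le_max_left _ _)
        (hmono _ _ (le_max_right _ _) x ?_)
      rw [← hzx]
      exact hGg j z ⟨hz.1.le, hz.2.le⟩
  · intro x hx
    rw [hF]
    have h1 : ∀ k, G k x = f x := by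
      intro k
      induction k with
      | zero => rw [hG0]
      | succ k ih =>
        rw [hGo k x, ih]
        intro j _ hxj
        exact hx (hDV j (bx_cl _ hxj))
    exact h1 _

end Pool.Agent.Q130.CX
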